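import Pool.Agent.Run7.h425.RN.Iface

/-! # PROJECT RN: pieces BAD and HHM -/

set_option autoImplicit false

namespace Pool.Agent.Run7.h425.RN

open MeasureTheory Real
open scoped ENNReal

theorem cs_coe (x : ℝ) : cs (x : Tc) = cos (2 * π * x) := by
  unfold cs
  rw [fourier_coe_apply]
  have e : (2 * (π : ℂ) * Complex.I * ((1 : ℤ) : ℂ) * (x : ℂ) / ((1 : ℝ) : ℂ)) =
      ((2 * π * x : ℝ) : ℂ) * Complex.I := by
    push_cast
    ring
  rw [e, Complex.exp_ofReal_mul_I_re]

theorem sn_coe (x : ℝ) : sn (x : Tc) = sin (2 * π * x) := by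
  unfold sn
  rw [fourier_coe_apply]
  have e : (2 * (π : ℂ) * Complex.I * ((1 : ℤ) : ℂ) * (x : ℂ) / ((1 : ℝ) : ℂ)) =
      ((2 * π * x : ℝ) : ℂ) * Complex.I := by
    push_cast
    ring
  rw [e, Complex.exp_ofReal_mul_I_im]

theorem g_coe (a x : ℝ) : g a (x : Tc) = Pool.Agent.TH705.SM.L a x := by
  unfold g Pool.Agent.TH705.SM.L
  rw [cs_coe]

theorem g_cc (a : ℝ) (x : Tc) : g a x = Pool.Agent.V1152.SMI.cc a x := by
  induction x using QuotientAddGroup.induction_on with
  | H x => exact (g_coe a x).trans (Pool.Agent.V1152.SMI.cc_coe a x).symm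

theorem t_BAD : S_BAD := by
  intro a K ha hK
  have h := Pool.Agent.Run7.h425.SM.Bad_vol ha hK
  have e : {p : T2 | |g a p.1 * g a p.2| < K} = Pool.Agent.Run7.h425.SM.Bad a K := by
    ext p
    show |g a p.1 * g a p.2| < K ↔
      |Pool.Agent.V1152.SMI.cc a p.1 * Pool.Agent.V1152.SMI.cc a p.2| < K
    rw [g_cc, g_cc]
  rw [e]
  rw [Measure.real] at h
  have hlt : (volume : Measure T2) (Pool.Agent.Run7.h425.SM.Bad a K) ≠ ⊤ := by
    have : IsProbabilityMeasure (volume : Measure T2) :=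
      Pool.Agent.TH705.SM.instProbTorus
    exact measure_ne_top _ _
  exact (ENNReal.le_ofReal_iff_toReal_le hlt (by
    have := Real.log_nonneg ha
    positivity)).2 h

theorem t_HHM : S_HHM := by
  intro a ha
  have h := Pool.Agent.TH705.SM.hmean_near ha
  have e : ∫ x : Tc, 1 / 2 * log (1 + g a x ^ 2) = Pool.Agent.TH705.SM.hmean a := by
    have h1 := UnitAddCircle.intervalIntegral_preimage 0 (fun x : Tc => 1 / 2 * log (1 + g a x ^ 2))
    rw [← h1, zero_add]
    unfold Pool.Agent.TH705.SM.hmean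
    apply intervalIntegral.integral_congr
    intro x _
    simp only [g_coe]
    unfold Pool.Agent.TH705.SM.hh
    ring_nf
  rw [e]
  constructor
  · linarith [h.1]
  · linarith [h.2]

end Pool.Agent.Run7.h425.RN
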