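import Pool.Agent.Run7.h425.RN.Iface

set_option autoImplicit false

namespace Pool.Agent.Run7.h425.RN

open MeasureTheory Real Filter Topology
open scoped ENNReal

theorem t_COC : S_COC := by
  intro a p
  constructor
  · intro ω n m
    induction m with
    | zero =>
      refine ⟨rfl, ?_⟩
      show A a ω p n = (ContinuousLinearMap.id ℝ (ℝ × ℝ)).comp (A a ω p n)
      rw [ContinuousLinearMap.id_comp]
    | succ m ih =>
      obtain ⟨h1, h2⟩ := ih
      constructor
      · show nxt a (orb a ω p (n + m)) (ω (n + m)) =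
          nxt a (orb a (sh n ω) (orb a ω p n) m) (sh n ω m)
        rw [h1]
        rfl
      · show (J (g a (orb a ω p (n + m)).1)).comp (A a ω p (n + m)) =
          ((J (g a (orb a (sh n ω) (orb a ω p n) m).1)).comp
            (A a (sh n ω) (orb a ω p n) m)).comp (A a ω p n)
        rw [h1, h2, ContinuousLinearMap.comp_assoc]
  · intro ω ω' n
    induction n with
    | zero => intro _; exact ⟨rfl, rfl⟩
    | succ n ih =>
      intro h
      obtain ⟨h1, h2⟩ := ih fun i hi => h i (by omega)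
      constructor
      · show nxt a (orb a ω p n) (ω n) = nxt a (orb a ω' p n) (ω' n)
        rw [h1, h n (by omega)]
      · show (J (g a (orb a ω p n).1)).comp (A a ω p n) =
          (J (g a (orb a ω' p n).1)).comp (A a ω' p n)
        rw [h1, h2]

theorem t_SWAP : S_SWAP := by
  intro ν _ F hF
  -- the inner integrals
  have m1 : Measurable (fun q : Tc × Tc × Tc × Tc × (ℕ → Tc) => F q) := hF
  -- `G (x₁, x₂, (x₃, x₄, ω))`
  have e1 : ∀ x₁ x₂ : Tc, ∫⁻ x₃ : Tc, ∫⁻ x₄ : Tc, ∫⁻ ω, F (x₁, x₂, x₃, x₄, ω) ∂(PP ν) =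
      ∫⁻ z : Tc × Tc × (ℕ → Tc), F (x₁, x₂, z) ∂((volume : Measure Tc).prod
        ((volume : Measure Tc).prod (PP ν))) := by
    intro x₁ x₂
    have h1 : Measurable (fun z : Tc × Tc × (ℕ → Tc) => F (x₁, x₂, z)) := by fun_prop
    rw [lintegral_prod _ h1.aemeasurable]
    refine lintegral_congr fun x₃ => ?_
    have h2 : Measurable (fun z : Tc × (ℕ → Tc) => F (x₁, x₂, x₃, z)) := by fun_prop
    rw [lintegral_prod _ h2.aemeasurable]
  simp_rw [e1]
  set M := (volume : Measure Tc).prod ((volume : Measure Tc).prod (PP ν)) with hM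
  have e2 : ∀ x₁ : Tc, ∫⁻ x₂ : Tc, ∫⁻ z, F (x₁, x₂, z) ∂M = ∫⁻ z, ∫⁻ x₂ : Tc, F (x₁, x₂, z) ∂volume ∂M := by
    intro x₁
    refine lintegral_lintegral_swap ?_
    have : Measurable (fun w : Tc × (Tc × Tc × (ℕ → Tc)) => F (x₁, w.1, w.2)) := by fun_prop
    exact this.aemeasurable
  simp_rw [e2]
  rw [lintegral_lintegral_swap]
  · have h3 : Measurable (fun z : Tc × Tc × (ℕ → Tc) => ∫⁻ x₁ : Tc, ∫⁻ x₂ : Tc, F (x₁, x₂, z)) := by
      have h4 : Measurable (fun w : (Tc × Tc × (ℕ → Tc)) × Tc => ∫⁻ x₂ : Tc, F (w.2, x₂, w.1)) := by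
        refine Measurable.lintegral_prod_right' (f := fun v : ((Tc × Tc × (ℕ → Tc)) × Tc) × Tc =>
          F (v.1.2, v.2, v.1.1)) ?_
        fun_prop
      exact h4.lintegral_prod_right
    rw [hM, lintegral_prod _ h3.aemeasurable]
    refine lintegral_congr fun x₃ => ?_
    have h5 : Measurable (fun z : Tc × (ℕ → Tc) => ∫⁻ x₁ : Tc, ∫⁻ x₂ : Tc, F (x₁, x₂, x₃, z)) :=
      h3.comp (measurable_const.prodMk measurable_id)
    rw [lintegral_prod _ h5.aemeasurable]
  · have h4 : Measurable (fun w : Tc × (Tc × Tc × (ℕ → Tc)) => ∫⁻ x₂ : Tc, F (w.1, x₂, w.2)) := by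
      refine Measurable.lintegral_prod_right' (f := fun v : (Tc × (Tc × Tc × (ℕ → Tc))) × Tc =>
        F (v.1.1, v.2, v.1.2)) ?_
      fun_prop
    exact h4.aemeasurable

end Pool.Agent.Run7.h425.RN
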