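import Pool.Agent.Run7.h425.RN.Bad

/-! # PROJECT RN: the end of the proof, from the pieces UPP, SUP, SUB, LOW, ANA, OPT -/

set_option autoImplicit false

namespace Pool.Agent.Run7.h425.RN

open MeasureTheory Real Filter Topology
open scoped ENNReal

theorem D_ge (ν : Measure Tc) [IsProbabilityMeasure ν] (D : ℝ)
    (hD : ν ≤ ENNReal.ofReal D • (volume : Measure Tc)) : 1 ≤ D := by
  have h := hD Set.univ
  rw [Measure.smul_apply, measure_univ, smul_eq_mul] at h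
  have h1 : (volume : Measure Tc) Set.univ = 1 := measure_univ
  rw [h1, mul_one] at h
  exact ENNReal.one_le_ofReal.1 h

/-- the two bounds at all times -/
theorem bounds (hUPP : S_UPP) (hSUP : S_SUP) (hSUB : S_SUB) (hLOW : S_LOW) (hANA : S_ANA)
    (hOPT : S_OPT) : ∃ C : ℝ, 0 < C ∧ ∀ (ν : Measure Tc) [IsProbabilityMeasure ν] (D : ℝ),
      ν ≤ ENNReal.ofReal D • (volume : Measure Tc) → ∀ a : ℝ, 1 ≤ |a| →
      (1 + log |a|) ^ 2 * (1 + log |a| + log D) ≤ a ^ 2 → ∀ n : ℕ, 1 ≤ n →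
      |Lam a ν n / n - log (π * |a|)| ≤ C * (|a| ^ (-(1 / 4) : ℝ) +
        ((1 + log |a|) ^ 2 * (1 + log |a| + log D) / a ^ 2) ^ (1 / 3 : ℝ)) := by
  obtain ⟨C₀, hC₀, hlow⟩ := hLOW
  obtain ⟨C, hC, hopt⟩ := hOPT C₀ hC₀
  refine ⟨C + 9, by linarith, ?_⟩
  intro ν _ D hD a ha h1 n hn
  have hD1 := D_ge ν D hD
  have ha0 : 0 < |a| := by linarith
  have hl : 0 ≤ log |a| := Real.log_nonneg ha
  have hlD : 0 ≤ log D := Real.log_nonneg hD1
  have hn0 : (0 : ℝ) < n := by exact_mod_cast hn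
  have hA2 : 0 < a ^ 2 := by
    rw [← sq_abs]
    positivity
  set s : ℝ := |a| ^ (-(1 / 4) : ℝ) with hs
  have hs0 : 0 < s := Real.rpow_pos_of_pos ha0 _
  set t : ℝ := ((1 + log |a|) ^ 2 * (1 + log |a| + log D) / a ^ 2) ^ (1 / 3 : ℝ) with ht
  have ht0 : 0 ≤ t := by
    apply Real.rpow_nonneg
    positivity
  have hup : Lam a ν n / n ≤ log (π * |a|) + 9 * s := by
    rw [div_le_iff₀ hn0]
    have := hUPP ν a ha n hn
    rw [← hs] at this
    linarith
  obtain ⟨h0, hsub⟩ := hSUB ν a ha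
  have hsup := fun n m => hSUP ν D hD a ha n m
  have hana := hANA (Lam a ν) (8 * log (2048 * |a| ^ 3 * D ^ 4)) h0 hsub hsup
  have hlo : log (π * |a|) - C * (s + t) ≤ Lam a ν n / n := by
    have := hopt |a| D (Lam a ν n / n) (Lam a ν) ha hD1 (by rw [sq_abs]; exact h1) ?_ ?_
    · rw [sq_abs] at this
      exact this
    · intro N _
      have h2 := hana n N
      rw [← mul_div_assoc, le_div_iff₀ hn0]
      linarith
    · intro K N hK hN
      exact hlow ν a K ha hK N hN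
  rw [abs_le]
  constructor
  · nlinarith
  · nlinarith

/-- the theorem on the torus: bounds at all times and the limit -/
theorem final (hUPP : S_UPP) (hSUP : S_SUP) (hSUB : S_SUB) (hLOW : S_LOW) (hANA : S_ANA)
    (hOPT : S_OPT) : ∃ C : ℝ, 0 < C ∧ ∀ (ν : Measure Tc) [IsProbabilityMeasure ν] (D : ℝ),
      ν ≤ ENNReal.ofReal D • (volume : Measure Tc) → ∀ a : ℝ, 1 ≤ |a| →
      (1 + log |a|) ^ 2 * (1 + log |a| + log D) ≤ a ^ 2 →
      (∀ n : ℕ, 1 ≤ n → |Lam a ν n / n - log (π * |a|)| ≤ C * (|a| ^ (-(1 / 4) : ℝ) +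
        ((1 + log |a|) ^ 2 * (1 + log |a| + log D) / a ^ 2) ^ (1 / 3 : ℝ))) ∧
      ∃ lam : ℝ, Tendsto (fun n : ℕ => Lam a ν n / n) atTop (𝓝 lam) ∧
        |lam - log (π * |a|)| ≤ C * (|a| ^ (-(1 / 4) : ℝ) +
        ((1 + log |a|) ^ 2 * (1 + log |a| + log D) / a ^ 2) ^ (1 / 3 : ℝ)) := by
  obtain ⟨C, hC, hb⟩ := bounds hUPP hSUP hSUB hLOW hANA hOPT
  refine ⟨C, hC, ?_⟩
  intro ν _ D hD a ha h1
  have hb1 := hb ν D hD a ha h1
  refine ⟨hb1, ?_⟩
  obtain ⟨h0, hsub⟩ := hSUB ν a ha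
  set R : ℝ := C * (|a| ^ (-(1 / 4) : ℝ) +
        ((1 + log |a|) ^ 2 * (1 + log |a| + log D) / a ^ 2) ^ (1 / 3 : ℝ)) with hR
  have hS : Subadditive (Lam a ν) := hsub
  have hbdd : BddBelow (Set.range fun n : ℕ => Lam a ν n / n) := by
    refine ⟨min 0 (log (π * |a|) - R), ?_⟩
    rintro x ⟨n, rfl⟩
    rcases Nat.eq_zero_or_pos n with hn | hn
    · subst hn
      simp only [Nat.cast_zero, div_zero]
      exact min_le_left _ _
    · have := (abs_le.1 (hb1 n hn)).1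
      exact (min_le_right _ _).trans (by linarith)
  have hlim := hS.tendsto_lim hbdd
  refine ⟨_, hlim, ?_⟩
  have h2 : Tendsto (fun n : ℕ => |Lam a ν n / n - log (π * |a|)|) atTop
      (𝓝 |hS.lim - log (π * |a|)|) := (hlim.sub tendsto_const_nhds).abs
  refine le_of_tendsto h2 ?_
  filter_upwards [eventually_ge_atTop 1] with n hn
  exact hb1 n hn

end Pool.Agent.Run7.h425.RN
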