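import Pool.Agent.Run7.h425.SM.Area
import Pool.Agent.Run7.h425.SM.Rec

/-!
# PROJECT RN (helper425, MP_9ee088_an): the Lyapunov exponent of the standard map with tiny noise

Theorem.  Let `X_(n+1) = S_a(X_n) + (ω_n, 0)` on the torus, `ω_n` iid on the circle with a law of
density at most `D` (noise of amplitude `ε`: `D = 1 / (2 ε)`), `X_0` uniform.  For EVERY `|a| ≥ 1`
with `(1 + log|a|)² (1 + log|a| + log D) ≤ a²`, at all times `n ≥ 1` the mean of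
`(1/n) log ‖DS(X_(n-1)) ... DS(X_0)‖` is `log(π|a|)` up to
`C (|a|^(-1/4) + ((1 + log|a|)² (1 + log|a| + log D) / a²)^(1/3))`.  No parameter is excluded; the
noise may be as small as `exp(-a² / log³ a)`.  (Blumenthal, Xue, Young 2017: lower bound
`(1 - δ) log|a|`, for noise `exp(-|a|^(1-β))`, or `exp(-|a|^(2-β))` outside some parameters.)

Every piece is a closed proposition `S_XXX`; a piece may use the pieces named in `uses` as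
hypotheses: `theorem t_XXX : S_AAA → S_BBB → S_XXX`.
-/

set_option autoImplicit false

namespace Pool.Agent.Run7.h425.RN

open MeasureTheory Real
open scoped ENNReal

abbrev Tc := UnitAddCircle
abbrev T2 := UnitAddCircle × UnitAddCircle
abbrev L2 := (ℝ × ℝ) →L[ℝ] (ℝ × ℝ)

/-- `cos 2πx` and `sin 2πx` on the circle -/
noncomputable def cs (x : Tc) : ℝ := (fourier 1 x : ℂ).re

noncomputable def sn (x : Tc) : ℝ := (fourier 1 x : ℂ).im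

/-- `2 + 2πa cos 2πx` -/
noncomputable def g (a : ℝ) (x : Tc) : ℝ := 2 + 2 * π * a * cs x

/-- the matrix `(c, -1; 1, 0)`, i.e. `(u, v) ↦ (c u - v, u)` -/
noncomputable def J (c : ℝ) : L2 :=
  (c • ContinuousLinearMap.fst ℝ ℝ ℝ - ContinuousLinearMap.snd ℝ ℝ ℝ).prod
    (ContinuousLinearMap.fst ℝ ℝ ℝ)

/-- one step with noise `s` : `S_a(x, y) + (s, 0)` -/
noncomputable def nxt (a : ℝ) (p : T2) (s : Tc) : T2 :=
  (p.1 + p.1 - p.2 + ((a * sn p.1 : ℝ) : Tc) + s, p.1)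

/-- the random orbit -/
noncomputable def orb (a : ℝ) (ω : ℕ → Tc) (p : T2) : ℕ → T2
  | 0 => p
  | n + 1 => nxt a (orb a ω p n) (ω n)

/-- the derivative cocycle `J(g(x_(n-1))) ... J(g(x_0))` -/
noncomputable def A (a : ℝ) (ω : ℕ → Tc) (p : T2) : ℕ → L2
  | 0 => ContinuousLinearMap.id ℝ (ℝ × ℝ)
  | n + 1 => (J (g a (orb a ω p n).1)).comp (A a ω p n)

/-- the shift of the noise by `n` -/
def sh (n : ℕ) (ω : ℕ → Tc) : ℕ → Tc := fun i => ω (n + i)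

/-- the first `n` terms of `q.1`, followed by `q.2` -/
def glue (n : ℕ) (q : (ℕ → Tc) × (ℕ → Tc)) : ℕ → Tc := fun i => if i < n then q.1 i else q.2 (i - n)

/-- `s` followed by `ω` -/
def cns (s : Tc) (ω : ℕ → Tc) : ℕ → Tc
  | 0 => s
  | i + 1 => ω i

/-- the law of the noise -/
noncomputable def PP (ν : Measure Tc) [IsProbabilityMeasure ν] : Measure (ℕ → Tc) :=
  Measure.infinitePi fun _ => ν

instance (ν : Measure Tc) [IsProbabilityMeasure ν] : IsProbabilityMeasure (PP ν) := by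
  unfold PP
  infer_instance

/-- the mean of `log ‖A_n‖` -/
noncomputable def Lam (a : ℝ) (ν : Measure Tc) [IsProbabilityMeasure ν] (n : ℕ) : ℝ :=
  ∫ ω, ∫ p : T2, log ‖A a ω p n‖ ∂volume ∂(PP ν)

/-- `|y|^(-r)`, with the value `⊤` at `y = 0` -/
noncomputable def pw (r y : ℝ) : ℝ≥0∞ := (ENNReal.ofReal |y|) ^ (-r)

/-! ### measure theory -/

/-- PIECE HEAD (40 lines, Mathlib only). Splitting off the first coordinate. Proof: show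
`(ν.prod (PP ν)).map (fun q => cns q.1 q.2) = PP ν` with `Measure.eq_infinitePi` (the preimage of a
box `Set.pi s t` is `(if 0 ∈ s then t 0 else univ) ×ˢ Set.pi s' t'` with `s'` the set of the `i` with
`i + 1 ∈ s`, `t' i = t (i + 1)`; `Measure.infinitePi_pi`), then `lintegral_map`, `lintegral_prod`. -/
def S_HEAD : Prop := ∀ (ν : Measure Tc) [IsProbabilityMeasure ν] (H : (ℕ → Tc) → ℝ≥0∞),
  Measurable H → ∫⁻ ω, H ω ∂(PP ν) = ∫⁻ s, ∫⁻ ω, H (cns s ω) ∂(PP ν) ∂ν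

/-- PIECE GLUE (50 lines, Mathlib only). Proof: `Measure.eq_infinitePi`; the preimage of a box
`Set.pi s t` under `glue n` is the product of the boxes over `s.filter (· < n)` and over the `j` with
`n + j ∈ s`. The second part (shift) is similar or follows from the first by projection. -/
def S_GLUE : Prop := ∀ (ν : Measure Tc) [IsProbabilityMeasure ν] (n : ℕ),
  MeasurePreserving (glue n) ((PP ν).prod (PP ν)) (PP ν) ∧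
  MeasurePreserving (sh n) (PP ν) (PP ν)

/-- PIECE SWAP (30 lines, Mathlib only). Tonelli: `lintegral_lintegral_swap` several times, or write
both sides as one integral over products. -/
def S_SWAP : Prop := ∀ (ν : Measure Tc) [IsProbabilityMeasure ν]
  (F : Tc × Tc × Tc × Tc × (ℕ → Tc) → ℝ≥0∞), Measurable F →
    ∫⁻ x₁ : Tc, ∫⁻ x₂ : Tc, ∫⁻ x₃ : Tc, ∫⁻ x₄ : Tc, ∫⁻ ω, F (x₁, x₂, x₃, x₄, ω) ∂(PP ν) =
    ∫⁻ x₃ : Tc, ∫⁻ x₄ : Tc, ∫⁻ ω, ∫⁻ x₁ : Tc, ∫⁻ x₂ : Tc, F (x₁, x₂, x₃, x₄, ω) ∂volume ∂volume ∂(PP ν)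

/-- PIECE KER (60 lines, uses HEAD). The law of the first coordinates `x_1, ..., x_4` of the orbit
has density at most `D ^ 4`. Proof: for measurable `G` and a constant `c` one has
`∫⁻ s, G (c + s) ∂ν ≤ D ∫⁻ s, G (c + s) = D ∫⁻ x, G x` (`ν ≤ D • volume`, `lintegral_mono'`,
`lintegral_add_left_eq_self`). Apply HEAD four times: `ω = cns s₁ (cns s₂ (cns s₃ (cns s₄ ω')))`,
`sh 4 ω = ω'`, and `x_1 = c_1 + s₁`, where `c_1` depends on `p`, `x_2 = c_2(x_1) + s₂`,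
`x_3 = c_3(x_1, x_2) + s₃`, `x_4 = c_4(x_2, x_3) + s₄`. Apply the estimate to the integrals over
`s₄, s₃, s₂, s₁` in this order. (It may be convenient to prove a lemma for one step: for measurable
`Ψ : T2 → (ℕ → Tc) → ℝ≥0∞` one has
`∫⁻ ω, Ψ (nxt a p (ω 0)) (sh 1 ω) ≤ D ∫⁻ x, ∫⁻ ω, Ψ (x, p.1) ω`.) -/
def S_KER : Prop := ∀ (ν : Measure Tc) [IsProbabilityMeasure ν] (D : ℝ),
  ν ≤ ENNReal.ofReal D • (volume : Measure Tc) → ∀ (a : ℝ) (p : T2)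
  (F : Tc × Tc × Tc × Tc × (ℕ → Tc) → ℝ≥0∞), Measurable F →
    ∫⁻ ω, F ((orb a ω p 1).1, (orb a ω p 2).1, (orb a ω p 3).1, (orb a ω p 4).1, sh 4 ω) ∂(PP ν) ≤
    ENNReal.ofReal D ^ 4 *
      ∫⁻ x₁ : Tc, ∫⁻ x₂ : Tc, ∫⁻ x₃ : Tc, ∫⁻ x₄ : Tc, ∫⁻ ω, F (x₁, x₂, x₃, x₄, ω) ∂(PP ν)

/-! ### negative moments -/

/-- PIECE COS (100 lines, Mathlib only). Proof. `cs (x : ℝ) = cos 2πx` (`fourier_coe_apply`). Let
`H y = |cos πy|` for `y : ℝ`, a function of period `1`, and `k = ∫⁻ over a period of (H y)^(-2r)`;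
`H y ≥ 2 |y - 1/2|` on `[0, 1]` (`mul_le_sin`), so `k ≤ ∫⁻ y in 0..1, |2y - 1|^(-2r) ≤ 2` since
`2r ≤ 1/2`. Case `|B| ≤ |A|`, `A ≠ 0`: `B / A = cos c`, `c = arccos (B/A)`,
`A cos 2πx + B = A (cos 2πx + cos c) = 2 A cos (πx + c/2) cos (πx - c/2)`, and
`p^(-r) q^(-r) ≤ p^(-2r) + q^(-2r)`; the integral of each of the two terms over a period is `k`. So the
integral is at most `|A|^(-r) · 2k ≤ 4 |A|^(-r)`. Case `|A| < |B| ≤ 2|A|`: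
`|A cos 2πx + B| ≥ |A cos 2πx ± A|`, so by the first case it is at most
`4 |A|^(-r) ≤ 4 · 2^r |B|^(-r) ≤ 8 |B|^(-r)`. Case `|B| > 2|A|`: `|A cos 2πx + B| ≥ |B| / 2`. If
`A = B = 0` the right side is `⊤`. -/
def S_COS : Prop := ∀ r : ℝ, 0 < r → r ≤ 1 / 4 → ∀ A B : ℝ,
  ∫⁻ x : Tc, pw r (A * cs x + B) ≤ 8 * pw r (max |A| |B|)

/-- PIECE MATR (80 lines, uses COS). Put `w = (g₁ u₁ - u₂, u₁)`, `g₁ = g a x₁`, `g₂ = g a x₂`; the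
integrand is `pw (1/8) (ρ₁ (g₂ w₁ - w₂) + ρ₂ w₁)`. As a function of `cs x₂` it is `A cs x₂ + B`,
`A = 2πa ρ₁ w₁`, `B = 2 ρ₁ w₁ + ρ₂ w₁ - ρ₁ w₂`. With `κ = max |A| |B|` and maximum norms:
`|ρ₁ w₁| ≤ κ/6`, `|ρ₂| w₁² ≤ |w₁| (|B| + 2 |ρ₁ w₁|) + |ρ₁ w₁| |w₂| ≤ (3/2) κ ‖w‖`, so
`κ ≥ ‖ρ‖ w₁² / (2 ‖w‖)`, and `‖w‖ ≤ 10 |a| ‖u‖`. So the inner integral is at most
`8 (‖ρ‖ w₁² / (20 |a| ‖u‖))^(-1/8) = 8 (20 |a| ‖u‖)^(1/8) ‖ρ‖^(-1/8) |w₁|^(-1/4)`.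
Now `w₁ = A' cs x₁ + B'`, `A' = 2πa u₁`, `B' = 2 u₁ - u₂`, `max |A'| |B'| ≥ ‖u‖ / 2`, and COS with
`r = 1/4` gives `∫⁻ |w₁|^(-1/4) ≤ 8 (‖u‖/2)^(-1/4)`. The product of the constants is
`64 · 20^(1/8) · 2^(1/4) |a|^(1/8) ≤ 128 |a|`. (`pw (1/8) y = ⊤` for `y = 0`; if `w₁ = 0` the bound
for the inner integral is `⊤`; this happens only for `x₁` in a null set, nothing to do.) -/
def S_MATR : Prop := ∀ a : ℝ, 1 ≤ |a| → ∀ ρ u : ℝ × ℝ, ρ ≠ 0 → u ≠ 0 →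
  ∫⁻ x₁ : Tc, ∫⁻ x₂ : Tc, pw (1 / 8) (ρ.1 * (g a x₂ * (g a x₁ * u.1 - u.2) - u.1) +
    ρ.2 * (g a x₁ * u.1 - u.2)) ≤
    ENNReal.ofReal (128 * |a|) * (pw (1 / 8) ‖ρ‖ * pw (1 / 8) ‖u‖)

/-- PIECE BLOCK (60 lines, uses MATR). Proof: choose `v = (1,0)` or `(0,1)` with
`‖B v‖ ≥ ‖B‖ / 2`, put `u = B v`; choose a coordinate `i` such that `ρ = ((C (1,0))_i, (C (0,1))_i)` has
`‖ρ‖ ≥ ‖C‖ / 2` (`‖C (s,t)‖ ≤ 2 max over i ...`). Then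
`‖C ∘ J(g₂) ∘ J(g₁) ∘ B‖ ≥ |(C (J(g₂) (J(g₁) u)))_i| = |ρ₁ (g₂ w₁ - w₂) + ρ₂ w₁|`. Use that `pw` is
antitone in `|y|` and `(1/2)^(-1/8) ≤ 2`. -/
def S_BLOCK : Prop := ∀ a : ℝ, 1 ≤ |a| → ∀ C B : L2, C ≠ 0 → B ≠ 0 →
  ∫⁻ x₁ : Tc, ∫⁻ x₂ : Tc, pw (1 / 8) ‖((C.comp (J (g a x₂))).comp (J (g a x₁))).comp B‖ ≤
    ENNReal.ofReal (512 * |a|) * (pw (1 / 8) ‖C‖ * pw (1 / 8) ‖B‖)

/-! ### the random orbit and the cocycle -/

/-- PIECE CONT (40 lines, Mathlib only): joint continuity, by induction on `n` (`cs`, `sn`, `J` are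
continuous; composition of continuous linear maps is continuous). -/
def S_CONT : Prop := ∀ (a : ℝ) (n : ℕ),
  Continuous (fun q : (ℕ → Tc) × T2 => orb a q.1 q.2 n) ∧
  Continuous (fun q : (ℕ → Tc) × T2 => A a q.1 q.2 n)

/-- PIECE BND (60 lines, Mathlib only). `‖J c‖ ≤ |c| + 1 ≤ 2π|a| + 3 ≤ 10 |a|` for `c = g a x`. Lower
bound: `A_n (1,0) = (α_(n+1), α_n)`, `A_n (0,1) = (β_(n+1), β_n)` and the determinant
`α_(n+1) β_n - α_n β_(n+1) = 1` (induction), so `1 ≤ 2 ‖A_n‖²`. The last part: `B` has the left inverse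
`J'(c) (u, v) = (v, c v - u)` of norm at most `|c| + 1`, i.e. `‖J c w‖ ≥ ‖w‖ / (|c| + 1)` and similarly
for the composition on the other side. -/
def S_BND : Prop := ∀ a : ℝ, 1 ≤ |a| →
  (∀ (ω : ℕ → Tc) (p : T2) (n : ℕ), ‖A a ω p n‖ ≤ (10 * |a|) ^ n ∧ 1 / 2 ≤ ‖A a ω p n‖) ∧
  ∀ (x : Tc) (B : L2), ‖J (g a x)‖ ≤ 10 * |a| ∧ ‖B‖ ≤ 10 * |a| * ‖(J (g a x)).comp B‖ ∧
    ‖B‖ ≤ 10 * |a| * ‖B.comp (J (g a x))‖

/-- PIECE COC (30 lines, Mathlib only): cocycle identities and locality, by induction on `m`, `n`. -/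
def S_COC : Prop := ∀ (a : ℝ) (p : T2),
  (∀ (ω : ℕ → Tc) (n m : ℕ), orb a ω p (n + m) = orb a (sh n ω) (orb a ω p n) m ∧
    A a ω p (n + m) = (A a (sh n ω) (orb a ω p n) m).comp (A a ω p n)) ∧
  ∀ (ω ω' : ℕ → Tc) (n : ℕ), (∀ i < n, ω i = ω' i) →
    orb a ω p n = orb a ω' p n ∧ A a ω p n = A a ω' p n

/-- PIECE STAT (30 lines): for every fixed noise the map `p ↦ orb a ω p n` preserves the area. One
step: `(x, y) ↦ (2x - y + a sin 2πx + s, x)`, a skew product (`MeasurePreserving.skew_product`,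
`Measure.measurePreserving_sub_left`) and a swap, as in
`Pool/Agent/TH705/SM/Torus.lean`, theorem `S_mp`. -/
def S_STAT : Prop := ∀ (a : ℝ) (ω : ℕ → Tc) (n : ℕ),
  MeasurePreserving (fun p : T2 => orb a ω p n) volume volume

/-- PIECE MIX (100 lines, uses KER, SWAP, BLOCK, CONT, BND, COC). The angle between the past and the
future is not small, in the mean. Proof. By COC,
`(A a ω p (4 + m)) ∘ B = A_m(X₄, sh 4 ω) ∘ J(g x₃) ∘ J(g x₂) ∘ J(g x₁) ∘ J(g x₀) ∘ B` with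
`x_k = (orb a ω p k).1`, `X₄ = (x₄, x₃)`. Apply KER with
`F (x₁,x₂,x₃,x₄,ω') = pw (1/8) ‖C ∘ J(g x₂) ∘ J(g x₁) ∘ B'‖ * (ENNReal.ofReal ‖A a ω' (x₄,x₃) m‖)^(1/8)`,
`C = A a ω' (x₄,x₃) m ∘ J(g x₃)`, `B' = J(g p.1) ∘ B`, then SWAP, then BLOCK for fixed `x₃, x₄, ω'`.
By BND `pw (1/8) ‖C‖ ≤ 2 |a| pw (1/8) ‖A_m‖`, `pw (1/8) ‖B'‖ ≤ 2 |a| pw (1/8) ‖B‖`
(`(10|a|)^(1/8) ≤ 2|a|`), and `pw (1/8) y * (ENNReal.ofReal y)^(1/8) = 1` for `y > 0`. So the constant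
is `512 |a| · 4 |a|² D⁴`. -/
def S_MIX : Prop := ∀ (ν : Measure Tc) [IsProbabilityMeasure ν] (D : ℝ),
  ν ≤ ENNReal.ofReal D • (volume : Measure Tc) → ∀ a : ℝ, 1 ≤ |a| → ∀ (p : T2) (B : L2), B ≠ 0 →
  ∀ m : ℕ, ∫⁻ ω, pw (1 / 8) ‖(A a ω p (4 + m)).comp B‖ *
      (ENNReal.ofReal ‖A a (sh 4 ω) (orb a ω p 4) m‖) ^ (1 / 8 : ℝ) ∂(PP ν) ≤
    ENNReal.ofReal (2048 * |a| ^ 3 * D ^ 4) * pw (1 / 8) ‖B‖

/-- PIECE SUP (120 lines, uses MIX, GLUE, CONT, BND, COC, STAT). Superadditivity. Let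
`B = A a ω p n`, `C = A a (sh (n+4) ω) (orb a ω p (n+4)) m`, `T = A a ω p (n + 4 + m)`; all norms are
bounded above and below by constants (BND), everything is continuous in `(ω, p)` (CONT), so all
integrals exist. Let `Y = (‖B‖ ‖C‖ / ‖T‖)^(1/8)`. For fixed `p`: by GLUE (first part, with `n`) and the
locality (COC), `∫⁻ ω, Y ∂PP = ∫⁻ ω, ∫⁻ ω', Y(ω, ω') ∂PP ∂PP`, where in `Y(ω, ω')` one has
`B = A a ω p n`, `T = (A a ω' X (4 + m)) ∘ B`, `C = A a (sh 4 ω') (orb a ω' X 4) m`, `X = orb a ω p n`;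
by MIX the inner integral is at most `R = 2048 |a|³ D⁴`. Hence `∫∫ Y ≤ R`. Since
`log y ≤ log R + y / R - 1`, `(1/8) (log ‖B‖ + log ‖C‖ - log ‖T‖) = log Y ≤ log R + Y/R - 1`; integrate:
`Lam n + ∫∫ log ‖C‖ - Lam (n+4+m) ≤ 8 log R`. Finally `∫∫ log ‖C‖ = Lam m`, by STAT (integral over `p`
for fixed `ω`) and GLUE (second part, shift by `n + 4`). (`D ≥ 1` since `ν` is a probability
measure, so `R ≥ 1`.) -/
def S_SUP : Prop := ∀ (ν : Measure Tc) [IsProbabilityMeasure ν] (D : ℝ),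
  ν ≤ ENNReal.ofReal D • (volume : Measure Tc) → ∀ a : ℝ, 1 ≤ |a| → ∀ n m : ℕ,
  Lam a ν n + Lam a ν m ≤ Lam a ν (n + 4 + m) + 8 * log (2048 * |a| ^ 3 * D ^ 4)

/-- PIECE SUB (60 lines, uses GLUE, CONT, BND, COC, STAT). Subadditivity: `‖A_(n+m)‖ ≤ ‖C‖ ‖A_n‖`,
`C = A a (sh n ω) (orb a ω p n) m`, and `∫∫ log ‖C‖ = Lam m` by STAT and GLUE (shift). Also
`Lam 0 = 0`. -/
def S_SUB : Prop := ∀ (ν : Measure Tc) [IsProbabilityMeasure ν] (a : ℝ), 1 ≤ |a| →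
  Lam a ν 0 = 0 ∧ ∀ n m : ℕ, Lam a ν (n + m) ≤ Lam a ν n + Lam a ν m

/-! ### the exponent for times which are not too long -/

/-- PIECE BAD (30 lines, library). `g a x = Pool.Agent.V1152.SMI.cc a x` (`cc_coe`,
`fourier_coe_apply`) and `Pool.Agent.Run7.h425.SM.Bad_vol`. -/
def S_BAD : Prop := ∀ a K : ℝ, 1 ≤ |a| → 1 ≤ K →
  (volume : Measure T2) {p | |g a p.1 * g a p.2| < K} ≤
    ENNReal.ofReal (8 * K * (1 + log |a|) / |a| ^ 2)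

/-- PIECE HHM (40 lines, library). `Pool.Agent.TH705.SM.hmean_near` (`hmean a` is the integral of
`hh a x = (1/2) log (1 + L a x ^ 2)` over `0..1`), and the integral over the circle is the integral
over `0..1` (`UnitAddCircle.integral_preimage`, `UnitAddCircle.intervalIntegral_preimage`), `g a x = L a x`
for real `x`. -/
def S_HHM : Prop := ∀ a : ℝ, 1 ≤ |a| →
  log (π * |a|) ≤ ∫ x : Tc, 1 / 2 * log (1 + g a x ^ 2) ∧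
  ∫ x : Tc, 1 / 2 * log (1 + g a x ^ 2) ≤ log (π * |a|) + 1 / |a|

/-- PIECE NEG (30 lines, uses COS). `g a x = A cs x + B` with `A = 2πa`, `B = 2`; COS with `r = 1/4`.
The real function `|y|^(-1/4)` is `0` at `y = 0`, so it is at most `pw (1/4) y`. -/
def S_NEG : Prop := ∀ a : ℝ, 1 ≤ |a| →
  Integrable (fun x : Tc => |g a x| ^ (-(1 / 4) : ℝ)) ∧
  ∫ x : Tc, |g a x| ^ (-(1 / 4) : ℝ) ≤ 8 * |a| ^ (-(1 / 4) : ℝ)

/-- PIECE PTW (40 lines, Mathlib only). With `t = |y|^(-1/4)`: `(1/2) log (1 + y²) - log |y| =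
(1/2) log (1 + t^8) ≤ (1/2) · 8 log (1 + t) ≤ 4 t`. And `log (1 + |y|) - (1/2) log (1 + y²) =
(1/2) log (1 + 2|y| / (1 + y²)) ≤ |y| / (1 + y²) ≤ t`. -/
def S_PTW : Prop := ∀ y : ℝ, y ≠ 0 →
  1 / 2 * log (1 + y ^ 2) ≤ log |y| + 4 * |y| ^ (-(1 / 4) : ℝ) ∧
  log (1 + |y|) ≤ 1 / 2 * log (1 + y ^ 2) + |y| ^ (-(1 / 4) : ℝ)

/-- PIECE DET (50 lines, library `Run7.h425.SM.rec_log`). For one orbit: if
`K ≤ |g(x_k) g(y_k)|` at all points `(x_k, y_k) = orb k`, `k < N`, then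
`log ‖A_N‖ ≥ ∑ log |g(x_k)| - 4 N / K`. Proof: `A_n (1,0) = (d (n+1), d n)` with `d 0 = 0`, `d 1 = 1`,
`d (k+2) = g(x_k) d (k+1) - d k`; apply `rec_log` with the sequence `G k = g(x_(k-1))`
(`G (k+1) = g (x_k)`; note `y_(k+1) = x_k`, so `G j G (j+1)` is `g(y_j) g(x_j)`; `G 1 ≠ 0` from `k = 0`)
and `|d (N+1)| ≤ ‖A_N (1,0)‖ ≤ ‖A_N‖`. -/
def S_DET : Prop := ∀ (a K : ℝ), 4 ≤ K → ∀ (ω : ℕ → Tc) (p : T2) (N : ℕ),
  (∀ k < N, K ≤ |g a (orb a ω p k).1 * g a (orb a ω p k).2|) →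
    (∀ k < N, g a (orb a ω p k).1 ≠ 0) ∧
    ∑ k ∈ Finset.range N, log |g a (orb a ω p k).1| - 4 * N / K ≤ log ‖A a ω p N‖

/-- PIECE LOW (120 lines, uses BAD, HHM, NEG, PTW, DET, STAT, CONT, BND). Let `h(x) =
(1/2) log (1 + g²)`, `0 ≤ h ≤ 10 (1 + log|a|)`, and `q(x) = 4 |g|^(-1/4)`. Let `Z` be the set of the
`(ω, p)` with `|g(x_k) g(y_k)| < K` for some `k < N`; for every `ω` its section has area at most
`N · 8K(1+log|a|)/|a|²` (STAT, BAD). Outside `Z`, by DET and PTW,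
`log ‖A_N‖ ≥ ∑ (h(x_k) - q(x_k)) - 4N/K`; on `Z`, `log ‖A_N‖ ≥ -1 ≥ ∑ (h(x_k) - q(x_k)) - 4N/K - 1 -
10 N (1+log|a|)`. So `log ‖A_N‖ ≥ ∑ (h(x_k) - q(x_k)) - 4N/K - (1 + 10 N (1+log|a|)) 1_Z` everywhere.
Integrate over `p` for fixed `ω` (STAT: `∫ h(x_k) = ∫ h ≥ log(π|a|)`, `∫ q(x_k) ≤ 32 |a|^(-1/4)`), then
over `ω`. -/
def S_LOW : Prop := ∃ C : ℝ, 0 < C ∧ ∀ (ν : Measure Tc) [IsProbabilityMeasure ν] (a K : ℝ),
  1 ≤ |a| → 4 ≤ K → ∀ N : ℕ, 1 ≤ N →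
  N * (log (π * |a|) - C * (1 / K + |a| ^ (-(1 / 4) : ℝ) +
    N * K * (1 + log |a|) ^ 2 / |a| ^ 2)) ≤ Lam a ν N

/-- PIECE UPP (60 lines, uses HHM, NEG, PTW, STAT, SUB). `Lam n ≤ n Lam 1` (SUB), and
`Lam 1 = ∫ log ‖J (g x)‖ ≤ ∫ log (1 + |g|) ≤ ∫ (h + |g|^(-1/4))` (at `g = 0` both sides are `0`). -/
def S_UPP : Prop := ∀ (ν : Measure Tc) [IsProbabilityMeasure ν] (a : ℝ), 1 ≤ |a| →
  ∀ n : ℕ, 1 ≤ n → Lam a ν n ≤ n * (log (π * |a|) + 9 * |a| ^ (-(1 / 4) : ℝ))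

/-! ### real analysis -/

/-- PIECE ANA (30 lines, Mathlib only). `n (L N - b) ≤ L (n (N + 4)) ≤ (N + 4) L n`: the first by
induction on `n` with `u` (`L (N + 4 + m) ≥ L N + L m - b`), `L 0 = 0`; the second by induction with
`s`. -/
def S_ANA : Prop := ∀ (L : ℕ → ℝ) (b : ℝ), L 0 = 0 → (∀ n m, L (n + m) ≤ L n + L m) →
  (∀ n m, L n + L m ≤ L (n + 4 + m) + b) → ∀ n N : ℕ, n * (L N - b) ≤ (N + 4) * L n

/-- PIECE OPT (60 lines, Mathlib only). Let `ℓ = 1 + log x`, `d = log D ≥ 0`, `Q = (ℓ² (ℓ + d) / x²)^(1/3)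
≤ 1`; choose `K = 4 / Q`, `N = ⌈Q² x² / ℓ²⌉` (`Q² x² / ℓ² = (ℓ + d) / Q ≥ 1`, so
`N ≤ 2 Q² x² / ℓ²`). Then `1/K ≤ Q`, `N K ℓ² / x² ≤ 8 Q`, `(ℓ + d) / N ≤ Q`, and
`v ≥ (L_N - b) / (N + 4)`, `b = 8 log (2048 x³ D⁴) ≤ 80 (ℓ + d)`, `log (π x) ≤ 2 ℓ`; here `v` is
`L n / n`, `w N` is `L N`. -/
def S_OPT : Prop := ∀ C₀ : ℝ, 0 < C₀ → ∃ C : ℝ, 0 < C ∧ ∀ (x D v : ℝ) (w : ℕ → ℝ), 1 ≤ x → 1 ≤ D →
  (1 + log x) ^ 2 * (1 + log x + log D) ≤ x ^ 2 →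
  (∀ N : ℕ, 1 ≤ N → w N - 8 * log (2048 * x ^ 3 * D ^ 4) ≤ (N + 4) * v) →
  (∀ (K : ℝ) (N : ℕ), 4 ≤ K → 1 ≤ N → N * (log (π * x) - C₀ * (1 / K + x ^ (-(1 / 4) : ℝ) +
    N * K * (1 + log x) ^ 2 / x ^ 2)) ≤ w N) →
  log (π * x) - C * (x ^ (-(1 / 4) : ℝ) +
    ((1 + log x) ^ 2 * (1 + log x + log D) / x ^ 2) ^ (1 / 3 : ℝ)) ≤ v

end Pool.Agent.Run7.h425.RN
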