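import Pool.Agent.Run7.h425.RN.Bad

/-! # PROJECT RN: from the plane (real noise, `fderiv`) to the torus -/

set_option autoImplicit false

namespace Pool.Agent.Run7.h425.RN

open MeasureTheory Real Filter Topology
open scoped ENNReal

/-- `q ↦ S_a (q) + (s, 0)`, lifted to the plane -/
noncomputable def pStep (a s : ℝ) (q : ℝ × ℝ) : ℝ × ℝ :=
  (2 * q.1 - q.2 + a * sin (2 * π * q.1) + s, q.1)

/-- the composition of the first `n` maps with the noise `ω 0, ω 1, ...` -/
noncomputable def pIter (a : ℝ) (ω : ℕ → ℝ) : ℕ → ℝ × ℝ → ℝ × ℝ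
  | 0 => id
  | n + 1 => pStep a (ω n) ∘ pIter a ω n

/-- the projection to the torus -/
noncomputable def pr (q : ℝ × ℝ) : T2 := ((q.1 : Tc), (q.2 : Tc))

theorem pr_step (a s : ℝ) (q : ℝ × ℝ) : pr (pStep a s q) = nxt a (pr q) (s : Tc) := by
  unfold pr pStep nxt
  simp only [Prod.mk.injEq, and_true]
  rw [sn_coe, ← AddCircle.coe_add, ← AddCircle.coe_sub, ← AddCircle.coe_add, ← AddCircle.coe_add]
  congr 1
  ring

theorem pr_iter (a : ℝ) (ω : ℕ → ℝ) (n : ℕ) (q : ℝ × ℝ) :
    pr (pIter a ω n q) = orb a (fun i => (ω i : Tc)) (pr q) n := by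
  induction n with
  | zero => rfl
  | succ n ih =>
    show pr (pStep a (ω n) (pIter a ω n q)) = nxt a (orb a (fun i => (ω i : Tc)) (pr q) n) (ω n : Tc)
    rw [pr_step, ih]

theorem hasF_step (a s : ℝ) (q : ℝ × ℝ) :
    HasFDerivAt (pStep a s) (J (g a (pr q).1)) q := by
  have hg : g a (pr q).1 = 2 + 2 * π * a * cos (2 * π * q.1) := by
    unfold g pr
    rw [cs_coe]
  rw [hg]
  unfold pStep J
  have h1 : HasFDerivAt (fun q : ℝ × ℝ => q.1) (ContinuousLinearMap.fst ℝ ℝ ℝ) q := hasFDerivAt_fst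
  have h2 : HasFDerivAt (fun q : ℝ × ℝ => q.2) (ContinuousLinearMap.snd ℝ ℝ ℝ) q := hasFDerivAt_snd
  refine HasFDerivAt.prodMk ?_ h1
  have h3 := (((h1.const_mul 2).sub h2).add (((h1.const_mul (2 * π)).sin).const_mul a)).add_const s
  refine h3.congr_fderiv ?_
  ext
  · simp
    ring
  · simp

theorem fderiv_iter (a : ℝ) (ω : ℕ → ℝ) (n : ℕ) (q : ℝ × ℝ) :
    HasFDerivAt (pIter a ω n) (A a (fun i => (ω i : Tc)) (pr q) n) q := by
  induction n with
  | zero => exact hasFDerivAt_id q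
  | succ n ih =>
    show HasFDerivAt (pStep a (ω n) ∘ pIter a ω n)
      ((J (g a (orb a (fun i => (ω i : Tc)) (pr q) n).1)).comp (A a (fun i => (ω i : Tc)) (pr q) n)) q
    rw [← pr_iter]
    exact (hasF_step a (ω n) (pIter a ω n q)).comp q ih

theorem int_square (F : T2 → ℝ) (hF : Measurable F) :
    ∫ q in Set.Icc (0 : ℝ) 1 ×ˢ Set.Icc (0 : ℝ) 1, F (pr q) = ∫ p : T2, F p := by
  have h1 : MeasurePreserving ((↑) : ℝ → Tc) (volume.restrict (Set.Icc (0 : ℝ) 1)) volume := by
    have := UnitAddCircle.measurePreserving_mk 0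
    rw [zero_add] at this
    rwa [Measure.restrict_congr_set Ioc_ae_eq_Icc] at this
  have h2 : MeasurePreserving pr ((volume.restrict (Set.Icc (0 : ℝ) 1)).prod
      (volume.restrict (Set.Icc (0 : ℝ) 1))) (volume : Measure T2) := by
    have := h1.prod h1
    exact this
  rw [Measure.prod_restrict] at h2
  have h3 : (∫ p : T2, F p) = ∫ p, F p ∂(Measure.map pr ((volume.prod volume).restrict
      (Set.Icc (0 : ℝ) 1 ×ˢ Set.Icc (0 : ℝ) 1))) := by rw [h2.map_eq]
  rw [h3, integral_map h2.measurable.aemeasurable hF.aestronglyMeasurable]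
  rfl

/-- the mean exponent in the plane is the one on the torus -/
theorem mean_eq (hCONT : S_CONT) (a : ℝ) (ν : Measure ℝ) [IsProbabilityMeasure ν]
    [IsProbabilityMeasure (ν.map (fun s : ℝ => (s : Tc)))] (n : ℕ) :
    ∫ ω, (∫ q in Set.Icc (0 : ℝ) 1 ×ˢ Set.Icc (0 : ℝ) 1, log ‖fderiv ℝ (pIter a ω n) q‖)
      ∂(Measure.infinitePi fun _ : ℕ => ν) = Lam a (ν.map (fun s : ℝ => (s : Tc))) n := by
  have hm : Measurable (fun s : ℝ => (s : Tc)) := (AddCircle.continuous_mk' 1).measurable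
  have e1 : ∀ ω : ℕ → ℝ, ∫ q in Set.Icc (0 : ℝ) 1 ×ˢ Set.Icc (0 : ℝ) 1,
      log ‖fderiv ℝ (pIter a ω n) q‖ = ∫ p : T2, log ‖A a (fun i => (ω i : Tc)) p n‖ := by
    intro ω
    rw [← int_square (fun p : T2 => log ‖A a (fun i => (ω i : Tc)) p n‖)]
    · refine integral_congr_ae (ae_of_all _ fun q => ?_)
      show log ‖fderiv ℝ (pIter a ω n) q‖ = log ‖A a (fun i => (ω i : Tc)) (pr q) n‖
      rw [(fderiv_iter a ω n q).fderiv]
    · have : Continuous (fun p : T2 => A a (fun i => (ω i : Tc)) p n) :=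
        (hCONT a n).2.comp (Continuous.prodMk continuous_const continuous_id)
      exact this.norm.measurable.log
  simp_rw [e1]
  unfold Lam PP
  have h4 := Measure.infinitePi_map_pi (μ := fun _ : ℕ => ν) (f := fun _ s => (s : Tc))
    (fun _ => hm)
  rw [← h4, integral_map]
  · exact (measurable_pi_lambda _ fun i => hm.comp (measurable_pi_apply i)).aemeasurable
  · have h5 : Measurable (fun q : (ℕ → Tc) × T2 => log ‖A a q.1 q.2 n‖) :=
      (hCONT a n).2.norm.measurable.log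
    exact (h5.stronglyMeasurable.integral_prod_right').aestronglyMeasurable

/-- noise with the uniform law on `[-ε, ε]`, `ε ≤ 1/2` -/
theorem uniform_le (ε : ℝ) (h0 : 0 < ε) (h1 : ε ≤ 1 / 2) :
    (ENNReal.ofReal (1 / (2 * ε)) • volume.restrict (Set.Icc (-ε) ε)).map (fun s : ℝ => (s : Tc)) ≤
      ENNReal.ofReal (1 / (2 * ε)) • (volume : Measure Tc) := by
  rw [Measure.map_smul]
  suffices key : (volume.restrict (Set.Icc (-ε) ε)).map (fun s : ℝ => (s : Tc)) ≤
      (volume : Measure Tc) by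
    intro s
    rw [Measure.smul_apply, Measure.smul_apply, smul_eq_mul, smul_eq_mul]
    gcongr
  have h2 := (UnitAddCircle.measurePreserving_mk (-ε)).map_eq
  calc (volume.restrict (Set.Icc (-ε) ε)).map (fun s : ℝ => (s : Tc))
      = (volume.restrict (Set.Ioc (-ε) ε)).map (fun s : ℝ => (s : Tc)) := by
        rw [Measure.restrict_congr_set Ioc_ae_eq_Icc]
    _ ≤ (volume.restrict (Set.Ioc (-ε) (-ε + 1))).map (fun s : ℝ => (s : Tc)) := by
        refine Measure.map_mono (Measure.restrict_mono (Set.Ioc_subset_Ioc_right (by linarith))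
          le_rfl) (AddCircle.continuous_mk' 1).measurable
    _ = volume := h2

end Pool.Agent.Run7.h425.RN
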