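import Pool.Agent.Run7.h425.RN.Iface

/-! # PROJECT RN, piece SUP (superadditivity), a version which is faster to check than the one in
`Pool/Agent/Run7/h760/RN/SUP.lean` -/

set_option autoImplicit false

namespace Pool.Agent.Run7.h425.RN

open MeasureTheory Real Filter Topology
open scoped ENNReal

theorem sh_glue (n : ℕ) (q : (ℕ → Tc) × (ℕ → Tc)) : sh n (glue n q) = q.2 := by
  funext i
  unfold sh glue
  simp

theorem sh_sh (n m : ℕ) (ω : ℕ → Tc) : sh m (sh n ω) = sh (n + m) ω := by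
  funext i
  unfold sh
  simp [add_assoc]

theorem logA_bound (hBND : S_BND) {a : ℝ} (ha : 1 ≤ |a|) (ω : ℕ → Tc) (p : T2) (k : ℕ) :
    |log ‖A a ω p k‖| ≤ 1 + k * log (10 * |a|) := by
  obtain ⟨h1, h2⟩ := (hBND a ha).1 ω p k
  have h0 : 0 < ‖A a ω p k‖ := by linarith
  have hl : 0 ≤ log (10 * |a|) := Real.log_nonneg (by linarith)
  have hk : 0 ≤ (k : ℝ) * log (10 * |a|) := by positivity
  rw [abs_le]
  constructor
  · have h3 := Real.log_le_log (by norm_num) h2
    have h4 : -1 ≤ log (1 / 2 : ℝ) := by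
      rw [one_div, Real.log_inv]
      have := Real.log_two_lt_d9
      linarith
    linarith
  · have h3 := Real.log_le_log h0 h1
    rw [Real.log_pow] at h3
    linarith

theorem pw_mul_self {y : ℝ} (hy : 0 < y) : ENNReal.ofReal y ^ (1 / 8 : ℝ) * pw (1 / 8) y = 1 := by
  unfold pw
  rw [abs_of_pos hy, ← ENNReal.rpow_add _ _ (by simpa using hy) ENNReal.ofReal_ne_top]
  norm_num

theorem t_SUP (hMIX : S_MIX) (hGLUE : S_GLUE) (hCONT : S_CONT) (hBND : S_BND) (hCOC : S_COC)
    (hSTAT : S_STAT) : S_SUP := by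
  intro ν _ D hD a ha n m
  have ha0 : 0 < |a| := by linarith
  have hD1 : 1 ≤ D := by
    have h := hD Set.univ
    rw [Measure.smul_apply, measure_univ, smul_eq_mul] at h
    have h1 : (volume : Measure Tc) Set.univ = 1 := measure_univ
    rw [h1, mul_one] at h
    exact ENNReal.one_le_ofReal.1 h
  set R : ℝ := 2048 * |a| ^ 3 * D ^ 4 with hR
  have hR0 : 0 < R := by positivity
  clear_value R
  have hprob : IsProbabilityMeasure (volume : Measure T2) := by
    have : IsProbabilityMeasure (volume : Measure Tc) := inferInstance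
    exact (inferInstance : IsProbabilityMeasure
      ((volume : Measure Tc).prod (volume : Measure Tc)))
  set μ : Measure ((ℕ → Tc) × T2) := (PP ν).prod volume with hμ
  -- positivity
  have hpos : ∀ (ω : ℕ → Tc) (p : T2) (k : ℕ), 0 < ‖A a ω p k‖ := fun ω p k => by
    have := ((hBND a ha).1 ω p k).2
    linarith
  -- measurability
  have mA : ∀ k, Measurable (fun q : (ℕ → Tc) × T2 => ‖A a q.1 q.2 k‖) :=
    fun k => (hCONT a k).2.norm.measurable
  have mO : ∀ k, Measurable (fun q : (ℕ → Tc) × T2 => orb a q.1 q.2 k) :=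
    fun k => (hCONT a k).1.measurable
  have mS : ∀ k, Measurable (sh k) := fun k =>
    measurable_pi_lambda _ fun i => measurable_pi_apply _
  have mΦ : ∀ k, Measurable (fun q : (ℕ → Tc) × T2 => (sh k q.1, orb a q.1 q.2 k)) := fun k =>
    ((mS k).comp measurable_fst).prodMk (mO k)
  -- the integrals
  have hint : ∀ k, Integrable (fun q : (ℕ → Tc) × T2 => log ‖A a q.1 q.2 k‖) μ := by
    intro k
    refine Integrable.of_bound (mA k).log.aestronglyMeasurable (1 + k * log (10 * |a|)) ?_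
    exact ae_of_all _ fun q => by
      rw [Real.norm_eq_abs]
      exact logA_bound hBND ha q.1 q.2 k
  have hLam : ∀ k, Lam a ν k = ∫ q, log ‖A a q.1 q.2 k‖ ∂μ := by
    intro k
    rw [hμ, integral_prod _ (hint k)]
    rfl
  have hΦ : ∀ k, MeasurePreserving (fun q : (ℕ → Tc) × T2 => (sh k q.1, orb a q.1 q.2 k)) μ μ := by
    intro k
    exact (hGLUE ν k).2.skew_product (g := fun ω p => orb a ω p k) (mO k)
      (ae_of_all _ fun ω => (hSTAT a ω k).map_eq)
  have hshift : ∫ q, log ‖A a (sh (n + 4) q.1) (orb a q.1 q.2 (n + 4)) m‖ ∂μ = Lam a ν m := by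
    rw [hLam m]
    have h1 := integral_map (μ := μ) (mΦ (n + 4)).aemeasurable
      (f := fun q : (ℕ → Tc) × T2 => log ‖A a q.1 q.2 m‖) (mA m).log.aestronglyMeasurable
    rw [(hΦ (n + 4)).map_eq] at h1
    exact h1.symm
  have hint2 : Integrable (fun q : (ℕ → Tc) × T2 =>
      log ‖A a (sh (n + 4) q.1) (orb a q.1 q.2 (n + 4)) m‖) μ := by
    refine Integrable.of_bound (((mA m).comp (mΦ (n + 4))).log.aestronglyMeasurable)
      (1 + m * log (10 * |a|)) ?_
    exact ae_of_all _ fun q => by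
      rw [Real.norm_eq_abs]
      exact logA_bound hBND ha _ _ m
  -- the function `Y`
  set H : (ℕ → Tc) → T2 → ℝ≥0∞ := fun ω p => ENNReal.ofReal ‖A a ω p n‖ ^ (1 / 8 : ℝ) *
    (pw (1 / 8) ‖A a ω p (n + 4 + m)‖ *
      ENNReal.ofReal ‖A a (sh (n + 4) ω) (orb a ω p (n + 4)) m‖ ^ (1 / 8 : ℝ)) with hH
  clear_value H
  have mH : Measurable (fun q : (ℕ → Tc) × T2 => H q.1 q.2) := by
    rw [hH]
    refine ((mA n).ennreal_ofReal.pow_const _).mul (Measurable.mul ?_ ?_)
    · unfold pw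
      exact (((mA (n + 4 + m)).abs).ennreal_ofReal.pow_const _)
    · exact ((mA m).comp (mΦ (n + 4))).ennreal_ofReal.pow_const _
  have hfix : ∀ p : T2, ∫⁻ ω, H ω p ∂(PP ν) ≤ ENNReal.ofReal R := by
    intro p
    have mHp : Measurable (fun ω => H ω p) := mH.comp (measurable_id.prodMk measurable_const)
    have h1 := (hGLUE ν n).1
    have hgm : Measurable (fun z : (ℕ → Tc) × (ℕ → Tc) => H (glue n z) p) :=
      mHp.comp h1.measurable
    rw [← h1.map_eq, lintegral_map mHp h1.measurable, lintegral_prod _ hgm.aemeasurable]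
    have h2 : ∀ ω₁ : ℕ → Tc, ∫⁻ ω₂, H (glue n (ω₁, ω₂)) p ∂(PP ν) ≤ ENNReal.ofReal R := by
      intro ω₁
      set B := A a ω₁ p n with hB
      set X := orb a ω₁ p n with hX
      have hB0 : 0 < ‖B‖ := hpos ω₁ p n
      clear_value B X
      have e : ∀ ω₂ : ℕ → Tc, H (glue n (ω₁, ω₂)) p = ENNReal.ofReal ‖B‖ ^ (1 / 8 : ℝ) *
          (pw (1 / 8) ‖(A a ω₂ X (4 + m)).comp B‖ *
            ENNReal.ofReal ‖A a (sh 4 ω₂) (orb a ω₂ X 4) m‖ ^ (1 / 8 : ℝ)) := by
        intro ω₂
        have hloc := (hCOC a p).2 (glue n (ω₁, ω₂)) ω₁ n (fun i hi => by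
          unfold glue
          rw [if_pos hi])
        have hs := sh_glue n (ω₁, ω₂)
        have h4 := (hCOC a p).1 (glue n (ω₁, ω₂)) n (4 + m)
        have h5 := (hCOC a p).1 (glue n (ω₁, ω₂)) n 4
        rw [hs, hloc.1, hloc.2, ← hB, ← hX] at h4
        rw [hs, hloc.1, ← hX] at h5
        rw [hH]
        simp only
        rw [hloc.2, ← sh_sh n 4, hs, h5.1, add_assoc n 4 m, h4.2, ← hB]
      simp_rw [e]
      rw [lintegral_const_mul' _ _ (by
        exact ENNReal.rpow_ne_top_of_nonneg (by norm_num) ENNReal.ofReal_ne_top)]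
      have h3 := hMIX ν D hD a ha X B (norm_pos_iff.1 hB0) m
      rw [← hR] at h3
      calc ENNReal.ofReal ‖B‖ ^ (1 / 8 : ℝ) * _ ≤ ENNReal.ofReal ‖B‖ ^ (1 / 8 : ℝ) *
            (ENNReal.ofReal R * pw (1 / 8) ‖B‖) := by gcongr
        _ = ENNReal.ofReal R * (ENNReal.ofReal ‖B‖ ^ (1 / 8 : ℝ) * pw (1 / 8) ‖B‖) := by ring
        _ = ENNReal.ofReal R := by rw [pw_mul_self hB0, mul_one]
    calc ∫⁻ ω₁, ∫⁻ ω₂, H (glue n (ω₁, ω₂)) p ∂(PP ν) ∂(PP ν)
        ≤ ∫⁻ _, ENNReal.ofReal R ∂(PP ν) := lintegral_mono h2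
      _ = ENNReal.ofReal R := by rw [lintegral_const, measure_univ, mul_one]
  have hall : ∫⁻ q, H q.1 q.2 ∂μ ≤ ENNReal.ofReal R := by
    rw [hμ, lintegral_prod_symm _ mH.aemeasurable]
    calc ∫⁻ p, ∫⁻ ω, H ω p ∂(PP ν) ∂volume ≤ ∫⁻ _ : T2, ENNReal.ofReal R := lintegral_mono hfix
      _ = ENNReal.ofReal R := by rw [lintegral_const, measure_univ, mul_one]
  -- the real function
  set y : (ℕ → Tc) × T2 → ℝ := fun q => 1 / 8 * (log ‖A a q.1 q.2 n‖ +
    log ‖A a (sh (n + 4) q.1) (orb a q.1 q.2 (n + 4)) m‖ - log ‖A a q.1 q.2 (n + 4 + m)‖) with hy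
  clear_value y
  have hYe : ∀ q, H q.1 q.2 = ENNReal.ofReal (exp (y q)) := by
    intro q
    have p1 := hpos q.1 q.2 n
    have p2 := hpos q.1 q.2 (n + 4 + m)
    have p3 := hpos (sh (n + 4) q.1) (orb a q.1 q.2 (n + 4)) m
    rw [hH]
    simp only
    unfold pw
    rw [abs_of_pos p2, ENNReal.ofReal_rpow_of_pos p1, ENNReal.ofReal_rpow_of_pos p2,
      ENNReal.ofReal_rpow_of_pos p3, ← ENNReal.ofReal_mul (by positivity),
      ← ENNReal.ofReal_mul (by positivity)]
    congr 1
    rw [Real.rpow_def_of_pos p1, Real.rpow_def_of_pos p2, Real.rpow_def_of_pos p3, ← Real.exp_add,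
      ← Real.exp_add]
    congr 1
    rw [hy]
    ring
  have hyint : Integrable y μ := by
    rw [hy]
    exact (((hint n).add hint2).sub (hint (n + 4 + m))).const_mul _
  have hexp : Integrable (fun q => exp (y q)) μ := by
    refine ⟨(Real.measurable_exp.comp_aemeasurable hyint.1.aemeasurable).aestronglyMeasurable, ?_⟩
    rw [hasFiniteIntegral_iff_ofReal (ae_of_all _ fun q => (exp_pos _).le)]
    simp_rw [← hYe]
    exact hall.trans_lt ENNReal.ofReal_lt_top
  have hEle : ∫ q, exp (y q) ∂μ ≤ R := by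
    rw [integral_eq_lintegral_of_nonneg_ae (ae_of_all _ fun q => (exp_pos _).le) hexp.1]
    simp_rw [← hYe]
    exact ENNReal.toReal_le_of_le_ofReal hR0.le hall
  have hle : ∫ q, y q ∂μ ≤ log R := by
    have h6 : ∀ q, y q ≤ log R + (exp (y q) / R - 1) := by
      intro q
      have := Real.log_le_sub_one_of_pos (x := exp (y q) / R) (by positivity)
      rw [Real.log_div (exp_pos _).ne' hR0.ne', Real.log_exp] at this
      linarith
    have i1 : Integrable (fun q => exp (y q) / R) μ := hexp.div_const _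
    have i2 : Integrable (fun q => exp (y q) / R - 1) μ := i1.sub (integrable_const _)
    calc ∫ q, y q ∂μ ≤ ∫ q, (log R + (exp (y q) / R - 1)) ∂μ :=
          integral_mono hyint ((integrable_const _).add i2) h6
      _ = log R + ((∫ q, exp (y q) ∂μ) / R - 1) := by
          rw [integral_add (integrable_const _) i2, integral_sub i1 (integrable_const _),
            integral_div]
          simp
      _ ≤ log R := by
          have : (∫ q, exp (y q) ∂μ) / R ≤ 1 := by
            rw [div_le_one hR0]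
            exact hEle
          linarith
  have hyval : ∫ q, y q ∂μ = 1 / 8 * (Lam a ν n + Lam a ν m - Lam a ν (n + 4 + m)) := by
    have i3 : Integrable (fun q : (ℕ → Tc) × T2 => log ‖A a q.1 q.2 n‖ +
        log ‖A a (sh (n + 4) q.1) (orb a q.1 q.2 (n + 4)) m‖) μ := (hint n).add hint2
    rw [hy, integral_const_mul, integral_sub i3 (hint _), integral_add (hint n) hint2, hshift,
      ← hLam, ← hLam]
  rw [hyval] at hle
  linarith

end Pool.Agent.Run7.h425.RN
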