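import Pool.Agent.Run7.h425.RN.Final
import Pool.Agent.Run7.h425.RN.Plane
import Pool.Agent.Run7.h227.RN.HG
import Pool.Agent.Run7.h544.RN.BlockDet
import Pool.Agent.Run7.h91.LY.CONT
import Pool.Agent.Run7.h91.LY.OPT
import Pool.Agent.Run7.h600.RN.COS
import Pool.Agent.Run7.h600.RN.NEG
import Pool.Agent.Run7.h600.RN.PTW
import Pool.Agent.Run7.h417.RN.KER
import Pool.Agent.Run7.h417.RN.SUB
import Pool.Agent.Run7.h417.RN.UPP
import Pool.Agent.Run7.h633.RN.LOW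
import Pool.Agent.Run7.h929.RN.MIX
import Pool.Agent.Run7.h425.RN.Sup
import Pool.Agent.Run7.h888.RN.SWAP
import Pool.Agent.Run7.h888.RN.MATR

/-! # PROJECT RN: all pieces together

(SUP was first proved by helper760 in `Pool/Agent/Run7/h760/RN/SUP.lean`; the version `Sup.lean` used here
is only faster to check.) -/

set_option autoImplicit false

namespace Pool.Agent.Run7.h425.RN

open MeasureTheory Real Filter Topology
open scoped ENNReal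

theorem hCONT : S_CONT := Run7.h91.RN.t_CONT

theorem hMIX : S_MIX :=
  Run7.h929.RN.t_MIX (Run7.h417.RN.t_KER Run7.h227.RN.t_HEAD) Run7.h888.RN.t_SWAP
    (Run7.h544.RN.t_BLOCK (Run7.h888.RN.t_MATR Run7.h600.RN.t_COS)) Run7.h91.RN.t_CONT
    Run7.h91.RN.t_BND Run7.h888.RN.t_COC

theorem hSUP : S_SUP :=
  t_SUP hMIX Run7.h227.RN.t_GLUE Run7.h91.RN.t_CONT Run7.h91.RN.t_BND
    Run7.h888.RN.t_COC Run7.h227.RN.t_STAT

theorem hSUB : S_SUB :=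
  Run7.h417.RN.t_SUB Run7.h227.RN.t_GLUE Run7.h91.RN.t_CONT Run7.h91.RN.t_BND
    Run7.h888.RN.t_COC Run7.h227.RN.t_STAT

theorem hNEG : S_NEG := Run7.h600.RN.t_NEG Run7.h600.RN.t_COS

theorem hLOW : S_LOW :=
  Run7.h633.RN.t_LOW t_BAD t_HHM hNEG Run7.h600.RN.t_PTW Run7.h544.RN.t_DET
    Run7.h227.RN.t_STAT Run7.h91.RN.t_CONT Run7.h91.RN.t_BND

theorem hUPP : S_UPP :=
  Run7.h417.RN.t_UPP t_HHM hNEG Run7.h600.RN.t_PTW Run7.h227.RN.t_STAT hSUB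

theorem main : ∃ C : ℝ, 0 < C ∧ ∀ (ν : Measure Tc) [IsProbabilityMeasure ν] (D : ℝ),
      ν ≤ ENNReal.ofReal D • (volume : Measure Tc) → ∀ a : ℝ, 1 ≤ |a| →
      (1 + log |a|) ^ 2 * (1 + log |a| + log D) ≤ a ^ 2 →
      (∀ n : ℕ, 1 ≤ n → |Lam a ν n / n - log (π * |a|)| ≤ C * (|a| ^ (-(1 / 4) : ℝ) +
        ((1 + log |a|) ^ 2 * (1 + log |a| + log D) / a ^ 2) ^ (1 / 3 : ℝ))) ∧
      ∃ lam : ℝ, Tendsto (fun n : ℕ => Lam a ν n / n) atTop (𝓝 lam) ∧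
        |lam - log (π * |a|)| ≤ C * (|a| ^ (-(1 / 4) : ℝ) +
        ((1 + log |a|) ^ 2 * (1 + log |a| + log D) / a ^ 2) ^ (1 / 3 : ℝ)) :=
  final hUPP hSUP hSUB hLOW Run7.h227.RN.t_ANA Run7.h91.RN.t_OPT

end Pool.Agent.Run7.h425.RN
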